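import Pool.Agent.W898.VR.Lit

/-!
# It is undecidable whether `L_A` admits every rule admissible in IPC

`num` is a bijective Goedel numbering of the formulas. The set of (numbers of) formulas `A` such that
`L_A = ⟨Ax^i + A, MP⟩` admits every rule that is admissible in intuitionistic propositional calculus
is not computable. (The development also contains the equivalence with admitting all of Visser's
rules: `Pool.Agent.W898.VR.visser_basis`.)
-/

set_option autoImplicit false

namespace Pool.Agent.Results.MP_47f674_lc.Undecidable

open Pool.Agent.W898.VR

theorem result : Function.Bijective num ∧
    ¬ ComputablePred (fun k : ℕ => ∃ A : Form, num A = k ∧ AdmitsAll A) :=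
  ⟨num_bij, lit_undecidable⟩

end Pool.Agent.Results.MP_47f674_lc.Undecidable
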